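import Pool.Agent.H477.O.Stm2
import Pool.Graph.R_seed8.H370R2.Local

/-!
# Project P (helper477), S_PFLAT: explicit form of the flatness lemma (helper976)
-/

set_option autoImplicit false

open Filter Topology Set Metric

namespace Pool.Agent.H976.P

/-- Taylor's series with two bounds for the coefficients -/
theorem flatq {R r K B : ℝ} (hr0 : 0 ≤ r) (hR1 : 1 ≤ R) (hrR : r < R)
    (φ : ℂ → ℂ) (c : ℂ) (hd : ∀ z ∈ closedBall c R, DifferentiableAt ℂ φ z)
    (hbR : ∀ z ∈ closedBall c R, ‖φ z‖ ≤ B) (hb1 : ∀ z ∈ closedBall c 1, ‖φ z‖ ≤ K) (n : ℕ) :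
    ∀ z ∈ closedBall c r, ‖φ z‖ ≤
      ∑ i ∈ Finset.range n, K * r ^ i + B * (r / R) ^ n / (1 - r / R) := by
  intro z hz
  have hR0 : 0 < R := by linarith
  obtain ⟨q, hq⟩ : ∃ q : ℝ, q = r / R := ⟨_, rfl⟩
  rw [← hq]
  have hq0 : 0 ≤ q := by rw [hq]; positivity
  have hq1 : q < 1 := by rw [hq]; exact (div_lt_one hR0).mpr hrR
  have h1q : 0 < 1 - q := by linarith
  have hzr : ‖z - c‖ ≤ r := by rwa [mem_closedBall, dist_eq_norm] at hz
  -- coefficients
  set a : ℕ → ℂ := fun i => ((i.factorial : ℂ))⁻¹ • (z - c) ^ i • iteratedDeriv i φ c with ha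
  have hsum : HasSum a (φ z) := by
    refine Complex.hasSum_taylorSeries_on_ball (r := R) (fun w hw => ?_) ?_
    · exact (hd w (ball_subset_closedBall hw)).differentiableWithinAt
    · rw [mem_ball, dist_eq_norm]; linarith
  have hc1 : ∀ i, ‖iteratedDeriv i φ c‖ ≤ i.factorial * K := fun i => by
    have h1 := Complex.norm_iteratedDeriv_le_of_forall_mem_sphere_norm_le (c := c) (R := 1) (C := K) (f := φ) i one_pos
      ⟨fun w hw => (hd w (closedBall_subset_closedBall (by linarith) (ball_subset_closedBall hw))).differentiableWithinAt,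
       fun w hw => (hd w (closedBall_subset_closedBall (by linarith) (closure_ball_subset_closedBall hw))).continuousAt.continuousWithinAt⟩
      (fun w hw => hb1 w (sphere_subset_closedBall hw))
    simpa using h1
  have hc2 : ∀ i, ‖iteratedDeriv i φ c‖ ≤ i.factorial * B / R ^ i := fun i =>
    Complex.norm_iteratedDeriv_le_of_forall_mem_sphere_norm_le (c := c) (R := R) (C := B) (f := φ) i hR0
      ⟨fun w hw => (hd w (ball_subset_closedBall hw)).differentiableWithinAt,
       fun w hw => (hd w (closure_ball_subset_closedBall hw)).continuousAt.continuousWithinAt⟩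
      (fun w hw => hbR w (sphere_subset_closedBall hw))
  have hf : ∀ i : ℕ, (0 : ℝ) < i.factorial := fun i => by exact_mod_cast Nat.factorial_pos i
  have hna : ∀ i, ‖a i‖ = (i.factorial : ℝ)⁻¹ * (‖z - c‖ ^ i * ‖iteratedDeriv i φ c‖) := fun i => by
    simp only [ha, norm_smul, norm_inv, Complex.norm_natCast, norm_pow]
  have ha1 : ∀ i, ‖a i‖ ≤ K * r ^ i := fun i => by
    rw [hna]
    calc (i.factorial : ℝ)⁻¹ * (‖z - c‖ ^ i * ‖iteratedDeriv i φ c‖)
        ≤ (i.factorial : ℝ)⁻¹ * (r ^ i * (i.factorial * K)) := by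
          have := hc1 i
          gcongr
      _ = K * r ^ i := by
          have := (hf i).ne'
          field_simp
  have ha2 : ∀ i, ‖a i‖ ≤ B * q ^ i := fun i => by
    rw [hna]
    calc (i.factorial : ℝ)⁻¹ * (‖z - c‖ ^ i * ‖iteratedDeriv i φ c‖)
        ≤ (i.factorial : ℝ)⁻¹ * (r ^ i * (i.factorial * B / R ^ i)) := by
          have := hc2 i
          gcongr
      _ = B * q ^ i := by
          have := (hf i).ne'
          rw [hq, div_pow]
          field_simp
  have hgeo : Summable fun i : ℕ => B * q ^ i := (summable_geometric_of_lt_one hq0 hq1).mul_left _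
  have hsa : Summable fun i => ‖a i‖ := Summable.of_nonneg_of_le (fun i => norm_nonneg _) ha2 hgeo
  have h3 : ‖φ z‖ ≤ ∑' i, ‖a i‖ := by
    rw [← hsum.tsum_eq]
    exact norm_tsum_le_tsum_norm hsa
  have h4 : ∑' i, ‖a i‖ = ∑ i ∈ Finset.range n, ‖a i‖ + ∑' i, ‖a (i + n)‖ := (hsa.sum_add_tsum_nat_add n).symm
  have h5 : ∑ i ∈ Finset.range n, ‖a i‖ ≤ ∑ i ∈ Finset.range n, K * r ^ i :=
    Finset.sum_le_sum fun i _ => ha1 i
  have h6 : ∑' i, ‖a (i + n)‖ ≤ B * q ^ n / (1 - q) := by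
    have h7 : Summable fun i => ‖a (i + n)‖ := (summable_nat_add_iff n).mpr hsa
    have h8 : Summable fun i : ℕ => B * q ^ n * q ^ i := (summable_geometric_of_lt_one hq0 hq1).mul_left _
    refine (h7.tsum_le_tsum (fun i => (ha2 (i + n)).trans (le_of_eq (by rw [pow_add]; ring))) h8).trans (le_of_eq ?_)
    rw [tsum_mul_left, tsum_geometric_of_lt_one hq0 hq1]
    ring
  linarith

/-- the bound of the logarithmic derivative by the theorem of Borel and Carathéodory -/
theorem bc {R δ K ℓ : ℝ} (hR : 2 ≤ R) (hδ : 0 < δ) (hδ1 : δ ≤ 1) (hK : 1 ≤ K) (hℓ1 : 1 ≤ ℓ)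
    {h : ℂ → ℂ} {c : ℂ} (ha : AnalyticOnNhd ℂ h (closedBall c R)) (h0 : ∀ z ∈ closedBall c R, h z ≠ 0)
    (hb : ∀ z ∈ closedBall c R, ‖h z‖ ≤ Real.exp (K * ℓ) * ‖h c‖) :
    ∀ w ∈ closedBall c (R - δ / 2), ‖logDeriv h w‖ ≤ 32 * R * (K + 1) * ℓ / δ ^ 2 := by
  intro w hw
  have h3 := H370.Loc.logDeriv_zero_free (g := h) (c := c) (r := R) (r1 := R - δ / 4) (r2 := R - δ / 2) (B := K * ℓ)
    (by linarith) (by linarith) (by linarith) (by positivity) ha h0 hb hw
  refine h3.trans ?_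
  have e1 : R - (R - δ / 4) = δ / 4 := by ring
  have e2 : R - δ / 4 - (R - δ / 2) = δ / 4 := by ring
  rw [e1, e2]
  have e : 32 * R * (K + 1) * ℓ / δ ^ 2 = 2 * ((K + 1) * ℓ) * R / (δ / 4) / (δ / 4) := by
    field_simp
    ring
  rw [e]
  have e3 : K * ℓ + 1 ≤ (K + 1) * ℓ := by nlinarith
  have e4 : 0 ≤ (K + 1) * ℓ := by positivity
  have e5 : R - δ / 4 ≤ R := by linarith
  have e6 : 0 ≤ R - δ / 4 := by linarith
  gcongr

/-- the numerical part; `x = log ℓ`, `lx = log log ℓ` -/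
theorem num {R K δ x lx : ℝ} {n : ℕ} (hR : 2 ≤ R) (hK : 1 ≤ K) (hδ : 0 < δ) (hδ1 : δ ≤ 1)
    (hlx : lx = Real.log x) (hx3 : 3 ≤ x) (hxK : 8 * R * (32 * R * (K + 1)) ≤ x) (hxK2 : 768 * K ≤ x)
    (hA : (24 * R * Real.log R + 1) * lx / x ≤ δ)
    (hn1 : (n : ℝ) ≤ x / (2 * Real.log R)) (hn2 : x / (2 * Real.log R) - 1 ≤ n) :
    ∑ i ∈ Finset.range n, K * (R - δ) ^ i +
      32 * R * (K + 1) * Real.exp x / δ ^ 2 * ((R - δ) / (R - δ / 2)) ^ n / (1 - (R - δ) / (R - δ / 2)) ≤
      δ ^ 2 * Real.exp x := by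
  have hx0 : 0 < x := by linarith
  have hlR : 1 / 2 ≤ Real.log R := by
    have h1 : Real.log 2 ≤ Real.log R := Real.log_le_log two_pos hR
    have h2 := Real.log_two_gt_d9
    linarith
  have hlR0 : 0 < Real.log R := by linarith
  have hlx1 : 1 ≤ lx := by
    rw [hlx, Real.le_log_iff_exp_le hx0]
    have := Real.exp_one_lt_d9
    linarith
  have hRl : 0 ≤ 24 * R * Real.log R := by positivity
  rw [div_le_iff₀ hx0] at hA
  -- consequences of the lower bound for `δ`
  have hδx : 1 ≤ δ * x := by nlinarith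
  have hδx6 : 24 * R * Real.log R * lx ≤ δ * x := by nlinarith
  -- the first part
  have p1 : ∑ i ∈ Finset.range n, K * (R - δ) ^ i ≤ K * x * Real.exp (x / 2) := by
    have hRn : R ^ n ≤ Real.exp (x / 2) := by
      have h1 : R ^ n = Real.exp (n * Real.log R) := by
        rw [Real.exp_nat_mul, Real.exp_log (by linarith)]
      rw [h1]
      apply Real.exp_le_exp.2
      have h2 := mul_le_mul_of_nonneg_right hn1 hlR0.le
      have h3 : x / (2 * Real.log R) * Real.log R = x / 2 := by field_simp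
      linarith
    have h1 : ∀ i ∈ Finset.range n, K * (R - δ) ^ i ≤ K * Real.exp (x / 2) := by
      intro i hi
      have hi' : i ≤ n := (Finset.mem_range.1 hi).le
      have h2 : (R - δ) ^ i ≤ R ^ i := pow_le_pow_left₀ (by linarith) (by linarith) i
      have h3 : R ^ i ≤ R ^ n := pow_le_pow_right₀ (by linarith) hi'
      exact mul_le_mul_of_nonneg_left (h2.trans (h3.trans hRn)) (by linarith)
    refine (Finset.sum_le_card_nsmul _ _ _ h1).trans ?_
    rw [Finset.card_range, nsmul_eq_mul]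
    have h4 : (n : ℝ) ≤ x := by
      refine hn1.trans ?_
      rw [div_le_iff₀ (by linarith)]
      nlinarith
    have h5 : 0 ≤ K * Real.exp (x / 2) := by positivity
    calc (n : ℝ) * (K * Real.exp (x / 2)) ≤ x * (K * Real.exp (x / 2)) :=
          mul_le_mul_of_nonneg_right h4 h5
      _ = K * x * Real.exp (x / 2) := by ring
  have p2 : K * x * Real.exp (x / 2) ≤ δ ^ 2 * Real.exp x / 2 := by
    have h1 : (x / 2) ^ 4 / 24 ≤ Real.exp (x / 2) := by
      have := Real.pow_div_factorial_le_exp (x / 2) (by linarith) 4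
      have h2 : ((4 : ℕ).factorial : ℝ) = 24 := by norm_num [Nat.factorial]
      rwa [h2] at this
    have h2 : 2 * K * x ^ 3 ≤ Real.exp (x / 2) := by
      have h3 : 2 * K * x ^ 3 ≤ (x / 2) ^ 4 / 24 := by
        have h4 : (x / 2) ^ 4 / 24 = x * x ^ 3 / 384 := by ring
        rw [h4]
        have h5 : 768 * K * x ^ 3 ≤ x * x ^ 3 := mul_le_mul_of_nonneg_right hxK2 (by positivity)
        linarith
      exact h3.trans h1
    have h6 : Real.exp x = Real.exp (x / 2) * Real.exp (x / 2) := by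
      rw [← Real.exp_add]; ring_nf
    have h7 : 1 ≤ (δ * x) ^ 2 := one_le_pow₀ hδx
    have h8 : 0 < Real.exp (x / 2) := Real.exp_pos _
    -- K x ≤ δ² E / 2
    have h9 : K * x ≤ δ ^ 2 * Real.exp (x / 2) / 2 := by
      have a1 : δ ^ 2 * (2 * K * x ^ 3) ≤ δ ^ 2 * Real.exp (x / 2) :=
        mul_le_mul_of_nonneg_left h2 (sq_nonneg _)
      have a2 : δ ^ 2 * (2 * K * x ^ 3) = 2 * (K * x) * (δ * x) ^ 2 := by ring
      have a3 : 2 * (K * x) * 1 ≤ 2 * (K * x) * (δ * x) ^ 2 :=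
        mul_le_mul_of_nonneg_left h7 (by positivity)
      linarith
    calc K * x * Real.exp (x / 2) ≤ δ ^ 2 * Real.exp (x / 2) / 2 * Real.exp (x / 2) :=
          mul_le_mul_of_nonneg_right h9 h8.le
      _ = δ ^ 2 * Real.exp x / 2 := by rw [h6]; ring
  -- the second part
  have hden : 0 < R - δ / 2 := by linarith
  obtain ⟨q, hq⟩ : ∃ q : ℝ, q = (R - δ) / (R - δ / 2) := ⟨_, rfl⟩
  rw [← hq]
  have hq0 : 0 ≤ q := by
    rw [hq]
    exact div_nonneg (by linarith) hden.le
  have h1q : δ / (2 * R) ≤ 1 - q := by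
    have h1 : 1 - q = (δ / 2) / (R - δ / 2) := by
      rw [hq, eq_div_iff hden.ne', sub_mul, div_mul_cancel₀ _ hden.ne']
      ring
    rw [h1, div_le_div_iff₀ (by linarith) hden]
    nlinarith
  have hδR : 0 < δ / (2 * R) := by positivity
  have h1q0 : 0 < 1 - q := by linarith
  have hqe : q ≤ Real.exp (-(δ / (2 * R))) := by
    have := Real.one_sub_le_exp_neg (δ / (2 * R))
    linarith
  have hqn : q ^ n ≤ 2 * Real.exp (-(6 * lx)) := by
    have h1 : q ^ n ≤ Real.exp (-(δ / (2 * R))) ^ n := pow_le_pow_left₀ hq0 hqe n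
    refine h1.trans ?_
    rw [← Real.exp_nat_mul]
    have h2 : (n : ℝ) * -(δ / (2 * R)) ≤ Real.log 2 + -(6 * lx) := by
      have h3 : (x / (2 * Real.log R) - 1) * (δ / (2 * R)) ≤ n * (δ / (2 * R)) :=
        mul_le_mul_of_nonneg_right hn2 hδR.le
      have h4 : x / (2 * Real.log R) * (δ / (2 * R)) = (δ * x) / (4 * R * Real.log R) := by
        field_simp
        ring
      have h5 : 6 * lx ≤ (δ * x) / (4 * R * Real.log R) := by
        rw [le_div_iff₀ (by positivity)]
        linarith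
      have h6 : δ / (2 * R) ≤ Real.log 2 := by
        have h7 : δ / (2 * R) ≤ 1 / 4 := by
          rw [div_le_div_iff₀ (by linarith) (by norm_num)]
          linarith
        have := Real.log_two_gt_d9
        linarith
      have h8 : (x / (2 * Real.log R) - 1) * (δ / (2 * R)) =
          x / (2 * Real.log R) * (δ / (2 * R)) - δ / (2 * R) := by ring
      rw [h8, h4] at h3
      linarith
    calc Real.exp ((n : ℝ) * -(δ / (2 * R))) ≤ Real.exp (Real.log 2 + -(6 * lx)) :=
          Real.exp_le_exp.2 h2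
      _ = 2 * Real.exp (-(6 * lx)) := by rw [Real.exp_add, Real.exp_log two_pos]
  have hexp6 : Real.exp (-(6 * lx)) = (x ^ 6)⁻¹ := by
    rw [Real.exp_neg, hlx, show (6 : ℝ) * Real.log x = ((6 : ℕ) : ℝ) * Real.log x by norm_num,
      Real.exp_nat_mul, Real.exp_log hx0]
  have p3 : 32 * R * (K + 1) * Real.exp x / δ ^ 2 * q ^ n / (1 - q) ≤ δ ^ 2 * Real.exp x / 2 := by
    obtain ⟨K2, hK2⟩ : ∃ K2 : ℝ, K2 = 32 * R * (K + 1) := ⟨_, rfl⟩
    rw [← hK2] at hxK ⊢
    have hK20 : 0 < K2 := by rw [hK2]; positivity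
    have hE : 0 < Real.exp x := Real.exp_pos x
    have s1 : K2 * Real.exp x / δ ^ 2 * q ^ n / (1 - q) ≤
        K2 * Real.exp x / δ ^ 2 * (2 * (x ^ 6)⁻¹) / (δ / (2 * R)) := by
      rw [hexp6] at hqn
      apply div_le_div₀ (by positivity) _ hδR h1q
      exact mul_le_mul_of_nonneg_left hqn (by positivity)
    refine s1.trans ?_
    have s2 : K2 * Real.exp x / δ ^ 2 * (2 * (x ^ 6)⁻¹) / (δ / (2 * R)) =
        4 * R * K2 * Real.exp x / (δ ^ 3 * x ^ 6) := by
      field_simp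
      ring
    rw [s2, div_le_iff₀ (by positivity)]
    have s3 : 1 ≤ (δ * x) ^ 5 := one_le_pow₀ hδx
    have s4 : δ ^ 2 * Real.exp x / 2 * (δ ^ 3 * x ^ 6) = Real.exp x / 2 * (x * (δ * x) ^ 5) := by ring
    rw [s4]
    have s5 : 8 * R * K2 ≤ x * (δ * x) ^ 5 := by
      have : x * 1 ≤ x * (δ * x) ^ 5 := mul_le_mul_of_nonneg_left s3 hx0.le
      linarith
    have s6 : Real.exp x / 2 * (8 * R * K2) ≤ Real.exp x / 2 * (x * (δ * x) ^ 5) :=
      mul_le_mul_of_nonneg_left s5 (by positivity)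
    linarith
  linarith

theorem pflat : Pool.Agent.H477.O.S_PFLAT := by
  intro R K hR hK
  have hlR0 : 0 < Real.log R := Real.log_pos (by linarith)
  obtain ⟨X0, hX0⟩ : ∃ X0 : ℝ, X0 = max 3 (max (8 * R * (32 * R * (K + 1))) (768 * K)) := ⟨_, rfl⟩
  have hX3 : 3 ≤ X0 := hX0 ▸ le_max_left _ _
  have hXK : 8 * R * (32 * R * (K + 1)) ≤ X0 := hX0 ▸ (le_max_left _ _).trans (le_max_right _ _)
  have hXK2 : 768 * K ≤ X0 := hX0 ▸ (le_max_right _ _).trans (le_max_right _ _)
  refine ⟨24 * R * Real.log R + 1, Real.exp X0, ?_, ?_, ?_⟩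
  · have : 0 ≤ 24 * R * Real.log R := by positivity
    linarith
  · have := Real.add_one_le_exp X0
    linarith
  · intro ℓ δ hℓ hA hδ1 h c ha h0 hb h1 z hz
    have hℓ0 : 0 < ℓ := (Real.exp_pos _).trans_le hℓ
    obtain ⟨x, hx⟩ : ∃ x : ℝ, x = Real.log ℓ := ⟨_, rfl⟩
    have hℓx : Real.exp x = ℓ := by rw [hx, Real.exp_log hℓ0]
    have hxX : X0 ≤ x := by
      rw [hx, Real.le_log_iff_exp_le hℓ0]
      exact hℓ
    have hx3 : 3 ≤ x := hX3.trans hxX
    have hx0 : 0 < x := by linarith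
    rw [← hx] at hA
    have hlx0 : 0 < Real.log x := Real.log_pos (by linarith)
    have hδ : 0 < δ := by
      refine lt_of_lt_of_le ?_ hA
      positivity
    have hℓ1 : 1 ≤ ℓ := by
      rw [← hℓx]
      exact Real.one_le_exp hx0.le
    have hbc := bc hR hδ hδ1 hK hℓ1 ha h0 hb
    have hfl := flatq (R := R - δ / 2) (r := R - δ) (K := K) (B := 32 * R * (K + 1) * ℓ / δ ^ 2)
      (by linarith) (by linarith) (by linarith) (logDeriv h) c
      (fun w hw => by
        have hw' : w ∈ closedBall c R := closedBall_subset_closedBall (by linarith) hw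
        exact ((ha w hw').deriv.div (ha w hw') (h0 w hw')).differentiableAt)
      hbc h1 ⌊x / (2 * Real.log R)⌋₊ z hz
    refine hfl.trans ?_
    rw [← hℓx]
    exact num hR hK hδ hδ1 rfl hx3 (hXK.trans hxX) (hXK2.trans hxX) hA
      (Nat.floor_le (by positivity)) (by
        have := Nat.lt_floor_add_one (x / (2 * Real.log R))
        linarith)

end Pool.Agent.H976.P
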